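import Pool.Agent.N662.SE.Stm2
import Pool.Agent.N662.SE.Prob

/-!
# SE/ID (helper951): the law of `log W_n(h)` does not depend on the shift of the environment
-/

set_option autoImplicit false

open MeasureTheory ProbabilityTheory Filter Topology

namespace Pool.Agent.N951.SE

open TH967.DP Pool.Agent.N662.SE

theorem t : S_ID := by
  intro d _ Ω _ P _ ω he β h m z n
  have key : ∀ (m : ℕ) (z : Fin d → ℤ), lw ω β h m z n =
      (fun η : Site d n → ℝ => Real.log (zz β h Set.univ η)) ∘
        (fun x (s : Site d n) => ω (m + s.1.1) (z + s.1.2) x) := by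
    intro m z
    funext x
    unfold lw
    rw [part_eq_zz]
    rfl
  have hF : Measurable (fun η : Site d n → ℝ => Real.log (zz β h Set.univ η)) :=
    Real.measurable_log.comp (measurable_zz β h Set.univ)
  have hG : ∀ (m : ℕ) (z : Fin d → ℤ),
      Measurable (fun x (s : Site d n) => ω (m + s.1.1) (z + s.1.2) x) := by
    intro m z
    rw [measurable_pi_iff]
    intro s
    exact he.meas _ _
  have hlaw : ∀ (m : ℕ) (z : Fin d → ℤ),
      P.map (fun x (s : Site d n) => ω (m + s.1.1) (z + s.1.2) x) =
        Measure.pi (fun _ : Site d n => P.map (ω 1 0)) := by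
    intro m z
    refine law he (κ := Site d n) (φ := fun s => (m + s.1.1, z + s.1.2)) ?_
    intro s t hst
    rw [Prod.mk.injEq] at hst
    apply Subtype.ext
    exact Prod.ext (Nat.add_left_cancel hst.1) (add_left_cancel hst.2)
  refine ⟨?_, ?_, ?_⟩
  · rw [key m z]
    exact (hF.comp (hG m z)).aemeasurable
  · rw [key 0 0]
    exact (hF.comp (hG 0 0)).aemeasurable
  · rw [key m z, key 0 0, ← Measure.map_map hF (hG m z), ← Measure.map_map hF (hG 0 0),
      hlaw m z, hlaw 0 0]

end Pool.Agent.N951.SE
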